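import Mathlib

/-! The braid group on three strands, its Artin action, the reduced Burau representation and
eigenvalues in the field of real Puiseux series. -/

open FreeGroup LaurentPolynomial

namespace Pool.Agent.Q137.BB

/-- the free group of rank three, the fundamental group of the disk with three punctures -/
abbrev F3 := FreeGroup (Fin 3)

/-- the braid relation `σ₁ σ₂ σ₁ = σ₂ σ₁ σ₂` -/
def braidRel : Set (FreeGroup (Fin 2)) :=
  {of 0 * of 1 * of 0 * (of 1 * of 0 * of 1)⁻¹}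

/-- the braid group `B₃` (Artin presentation) -/
abbrev B3 := PresentedGroup braidRel

/-- `x₀ ↦ x₀ x₁ x₀⁻¹`, `x₁ ↦ x₀`, `x₂ ↦ x₂` -/
def f1 : F3 →* F3 := FreeGroup.lift ![of 0 * of 1 * (of 0)⁻¹, of 0, of 2]
/-- inverse of `f1` -/
def g1 : F3 →* F3 := FreeGroup.lift ![of 1, (of 1)⁻¹ * of 0 * of 1, of 2]
/-- `x₀ ↦ x₀`, `x₁ ↦ x₁ x₂ x₁⁻¹`, `x₂ ↦ x₁` -/
def f2 : F3 →* F3 := FreeGroup.lift ![of 0, of 1 * of 2 * (of 1)⁻¹, of 1]
/-- inverse of `f2` -/
def g2 : F3 →* F3 := FreeGroup.lift ![of 0, of 2, (of 2)⁻¹ * of 1 * of 2]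

lemma gf1 : g1.comp f1 = MonoidHom.id F3 := by
  ext i; fin_cases i <;> simp [f1, g1, mul_assoc]
lemma fg1 : f1.comp g1 = MonoidHom.id F3 := by
  ext i; fin_cases i <;> simp [f1, g1, mul_assoc]
lemma gf2 : g2.comp f2 = MonoidHom.id F3 := by
  ext i; fin_cases i <;> simp [f2, g2, mul_assoc]
lemma fg2 : f2.comp g2 = MonoidHom.id F3 := by
  ext i; fin_cases i <;> simp [f2, g2, mul_assoc]

/-- Artin automorphism of `σ₁` -/
def A1 : MulAut F3 := MonoidHom.toMulEquiv f1 g1 gf1 fg1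
/-- Artin automorphism of `σ₂` -/
def A2 : MulAut F3 := MonoidHom.toMulEquiv f2 g2 gf2 fg2

lemma A_rel : A1 * A2 * A1 = A2 * A1 * A2 := by
  have h : (A1 * A2 * A1).toMonoidHom = (A2 * A1 * A2).toMonoidHom := by
    ext i
    fin_cases i <;> simp [A1, A2, f1, f2, MulAut.mul_apply, mul_assoc]
  ext x
  exact DFunLike.congr_fun h x

/-- the Artin action of `B₃` on the free group of rank three -/
def artin : B3 →* MulAut F3 :=
  PresentedGroup.toGroup (f := ![A1, A2]) (by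
    intro r hr
    rw [braidRel, Set.mem_singleton_iff] at hr
    subst hr
    simp [A_rel])

/-- `P` is the positive cone of a bi-order -/
structure IsBiCone {G : Type} [Group G] (P : Set G) : Prop where
  mul_mem : ∀ a ∈ P, ∀ b ∈ P, a * b ∈ P
  conj_mem : ∀ g : G, ∀ a ∈ P, g * a * g⁻¹ ∈ P
  one_notMem : (1 : G) ∉ P
  total : ∀ a : G, a ≠ 1 → a ∈ P ∨ a⁻¹ ∈ P

/-- the class of the Artin automorphism of `β` in the outer automorphism group fixes a bi-order -/
def OrderPreserving (β : B3) : Prop :=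
  ∃ P : Set F3, IsBiCone P ∧ artin β '' P = P

/-- reduced Burau matrix of `σ₁` -/
noncomputable def M1 : Matrix (Fin 2) (Fin 2) ℤ[T;T⁻¹] := !![-T 1, 1; 0, 1]
/-- reduced Burau matrix of `σ₂` -/
noncomputable def M2 : Matrix (Fin 2) (Fin 2) ℤ[T;T⁻¹] := !![1, 0; T 1, -T 1]
/-- its inverse -/
noncomputable def M1i : Matrix (Fin 2) (Fin 2) ℤ[T;T⁻¹] := !![-T (-1), T (-1); 0, 1]
/-- its inverse -/
noncomputable def M2i : Matrix (Fin 2) (Fin 2) ℤ[T;T⁻¹] := !![1, 0; 1, -T (-1)]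

lemma TT : (T 1 * T (-1) : ℤ[T;T⁻¹]) = 1 := by rw [← T_add]; simp
lemma TT' : (T (-1) * T 1 : ℤ[T;T⁻¹]) = 1 := by rw [← T_add]; simp

/-- as invertible matrices -/
noncomputable def U1 : (Matrix (Fin 2) (Fin 2) ℤ[T;T⁻¹])ˣ where
  val := M1
  inv := M1i
  val_inv := by
    simp only [M1, M1i]
    rw [Matrix.mul_fin_two, Matrix.one_fin_two]
    have h := TT
    generalize (T 1 : ℤ[T;T⁻¹]) = t at *
    generalize (T (-1) : ℤ[T;T⁻¹]) = s at *
    simp [h]
  inv_val := by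
    simp only [M1, M1i]
    rw [Matrix.mul_fin_two, Matrix.one_fin_two]
    have h := TT'
    generalize (T 1 : ℤ[T;T⁻¹]) = t at *
    generalize (T (-1) : ℤ[T;T⁻¹]) = s at *
    simp [h]
/-- as invertible matrices -/
noncomputable def U2 : (Matrix (Fin 2) (Fin 2) ℤ[T;T⁻¹])ˣ where
  val := M2
  inv := M2i
  val_inv := by
    simp only [M2, M2i]
    rw [Matrix.mul_fin_two, Matrix.one_fin_two]
    have h := TT
    generalize (T 1 : ℤ[T;T⁻¹]) = t at *
    generalize (T (-1) : ℤ[T;T⁻¹]) = s at *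
    simp [h]
  inv_val := by
    simp only [M2, M2i]
    rw [Matrix.mul_fin_two, Matrix.one_fin_two]
    have h := TT'
    generalize (T 1 : ℤ[T;T⁻¹]) = t at *
    generalize (T (-1) : ℤ[T;T⁻¹]) = s at *
    simp [h]

lemma U_rel : U1 * U2 * U1 = U2 * U1 * U2 := by
  apply Units.ext
  simp only [Units.val_mul, U1, U2, M1, M2]
  rw [Matrix.mul_fin_two, Matrix.mul_fin_two, Matrix.mul_fin_two, Matrix.mul_fin_two]
  generalize (T 1 : ℤ[T;T⁻¹]) = t
  simp

/-- the reduced Burau representation of `B₃` -/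
noncomputable def burau : B3 →* (Matrix (Fin 2) (Fin 2) ℤ[T;T⁻¹])ˣ :=
  PresentedGroup.toGroup (f := ![U1, U2]) (by
    intro r hr
    rw [braidRel, Set.mem_singleton_iff] at hr
    subst hr
    simp [U_rel])

/-- real Puiseux series in `t`, inside the Hahn series with rational exponents -/
def IsPuiseux (f : HahnSeries ℚ ℝ) : Prop :=
  ∃ N : ℕ, 0 < N ∧ ∀ q ∈ f.support, ∃ k : ℤ, q = k / N

/-- the embedding of the Laurent polynomials, with `T` sent to the series `t` -/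
noncomputable def emb : ℤ[T;T⁻¹] →+* HahnSeries ℚ ℝ :=
  LaurentPolynomial.eval₂ (Int.castRingHom (HahnSeries ℚ ℝ))
    { val := HahnSeries.single 1 1
      inv := HahnSeries.single (-1) 1
      val_inv := by simp
      inv_val := by simp }

/-- `a` is an eigenvalue of the reduced Burau matrix of `β` in the field of Puiseux series -/
def IsEigenvalue (β : B3) (a : HahnSeries ℚ ℝ) : Prop :=
  IsPuiseux a ∧ (((burau β : Matrix (Fin 2) (Fin 2) ℤ[T;T⁻¹]).charpoly).map emb).IsRoot a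

end Pool.Agent.Q137.BB
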