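import Pool.Agent.Q137.BB.Order

/-! An order-preserving braid with negative Burau eigenvalues. -/

open Pool.Agent.TH94.Gol LaurentPolynomial

namespace Pool.Agent.Q137.BB

section cone

variable {J : Type} [LinearOrder J]

/-- the Magnus cone -/
def cone (J : Type) [LinearOrder J] : Set (FreeGroup J) :=
  {x | ∃ n, 1 ≤ n ∧ DD n x ∧ cf n x ≠ 0 ∧ nnV (cf n x)}

omit [LinearOrder J] in
lemma cf_eq_zero {n m : ℕ} (hn : 1 ≤ n) (h : n < m) {y : FreeGroup J} (hy : DD m y) :
    cf n y = 0 := (DD_iff m y).1 hy n hn h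

omit [LinearOrder J] in
lemma DD_mono {n m : ℕ} (h : n ≤ m) {y : FreeGroup J} (hy : DD m y) : DD n y := OO.mono hy h

lemma cone_isBiCone : IsBiCone (cone J) where
  mul_mem := by
    rintro x ⟨n, hn, hx1, hx2, hx3⟩ y ⟨m, hm, hy1, hy2, hy3⟩
    rcases lt_trichotomy n m with h | h | h
    · obtain ⟨h1, h2⟩ := DD_mul hn hx1 (DD_mono h.le hy1)
      rw [cf_eq_zero hn h hy1, add_zero] at h2
      exact ⟨n, hn, h1, by rwa [h2], by rwa [h2]⟩
    · subst h
      obtain ⟨h1, h2⟩ := DD_mul hn hx1 hy1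
      refine ⟨n, hn, h1, ?_, by rw [h2]; exact nnV_add hx3 hy3⟩
      rw [h2]
      intro h0
      apply hx2
      apply nnV_antisymm hx3
      have : -cf n x = cf n y := by rw [neg_eq_iff_add_eq_zero]; exact h0
      rw [this]; exact hy3
    · obtain ⟨h1, h2⟩ := DD_mul hm (DD_mono h.le hx1) hy1
      rw [cf_eq_zero hm h hx1, zero_add] at h2
      exact ⟨m, hm, h1, by rwa [h2], by rwa [h2]⟩
  conj_mem := by
    rintro g x ⟨n, hn, hx1, hx2, hx3⟩
    obtain ⟨h1, h2⟩ := DD_conj hn g hx1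
    exact ⟨n, hn, h1, by rwa [h2], by rwa [h2]⟩
  one_notMem := by
    rintro ⟨n, hn, -, h, -⟩
    apply h
    have h1 : MM (1 : FreeGroup J) = 1 := map_one _
    rw [cf, h1, PowerSeries.coeff_one, if_neg (by omega)]
  total := by
    intro a ha
    classical
    obtain ⟨N, hN⟩ := exists_not_DD a ha
    have hex : ∃ n, ¬ DD n a := ⟨N, hN N le_rfl⟩
    obtain ⟨k, hk⟩ : ∃ k, Nat.find hex = k + 1 := by
      cases h : Nat.find hex with
      | zero =>
        exfalso
        have h1 := Nat.find_spec hex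
        rw [h] at h1
        exact h1 (OO.zero _)
      | succ k => exact ⟨k, rfl⟩
    have hDk : DD k a := by
      by_contra hcon
      have := Nat.find_min' hex hcon
      omega
    have hnk : ¬ DD (k + 1) a := by rw [← hk]; exact Nat.find_spec hex
    have hk1 : 1 ≤ k := by
      by_contra h0
      have : k = 0 := by omega
      subst this
      exact hnk (DD_one a)
    have hc : cf k a ≠ 0 := by
      intro h0
      apply hnk
      rw [DD_iff] at hDk ⊢
      intro i h1 h2
      rcases Nat.lt_succ_iff_lt_or_eq.1 h2 with h | h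
      · exact hDk i h1 h
      · subst h; exact h0
    rcases nnV_total (cf k a) with h | h
    · exact Or.inl ⟨k, hk1, hDk, hc, h⟩
    · obtain ⟨h1, h2⟩ := DD_inv hk1 hDk
      exact Or.inr ⟨k, hk1, h1, by rw [h2]; exact neg_ne_zero.2 hc, by rwa [h2]⟩

lemma cone_inv {φ : FreeGroup J →* FreeGroup J} (hφ : Triv φ) {x : FreeGroup J}
    (hx : x ∈ cone J) : φ x ∈ cone J := by
  obtain ⟨n, hn, h1, h2, h3⟩ := hx
  have h4 := leading_inv hφ h1
  have h5 : DD n (φ x) := by
    have e : MM (φ x) - 1 = (MM (φ x) - MM x) + (MM x - 1) := by noncomm_ring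
    unfold DD
    rw [e]
    exact (h4.mono (by omega)).add h1
  have h6 : cf n (φ x) = cf n x := by
    have := h4 n (by omega)
    rw [map_sub, sub_eq_zero] at this
    exact this
  exact ⟨n, hn, h5, by rwa [h6], by rwa [h6]⟩

lemma cone_image {φ : MulAut (FreeGroup J)} (hφ : Triv φ.toMonoidHom) : φ '' cone J = cone J := by
  have hb := cone_isBiCone (J := J)
  apply Set.Subset.antisymm
  · rintro _ ⟨x, hx, rfl⟩
    exact cone_inv hφ hx
  · intro y hy
    refine ⟨φ.symm y, ?_, φ.apply_symm_apply y⟩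
    by_contra hcon
    have hne : φ.symm y ≠ 1 := by
      intro h
      have h1 : y = 1 := by
        have := congrArg φ h
        rwa [φ.apply_symm_apply, map_one] at this
      exact hb.one_notMem (h1 ▸ hy)
    have h2 := (hb.total _ hne).resolve_left hcon
    have h3 := cone_inv hφ h2
    have h4 : φ.toMonoidHom (φ.symm y)⁻¹ = y⁻¹ := by
      rw [map_inv]
      exact congrArg _ (φ.apply_symm_apply y)
    rw [h4] at h3
    have h5 := hb.mul_mem y hy _ h3
    rw [mul_inv_cancel] at h5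
    exact hb.one_notMem h5

end cone

/-! ### the braid -/

lemma c1_mul {J : Type} (x y : FreeGroup J) : cf 1 (x * y) = cf 1 x + cf 1 y :=
  (DD_mul le_rfl (DD_one x) (DD_one y)).2
lemma c1_inv {J : Type} (x : FreeGroup J) : cf 1 x⁻¹ = - cf 1 x :=
  (DD_inv le_rfl (DD_one x)).2
lemma c1_of {J : Type} (j : J) : cf 1 (FreeGroup.of j) = zeta ℚ j := by
  rw [cf, MM_of, map_add, PowerSeries.coeff_one, if_neg one_ne_zero, zero_add,
    PowerSeries.coeff_C_mul, PowerSeries.coeff_one_X, mul_one]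

/-- the braid `(σ₂ σ₁⁻¹)³` -/
def beta : B3 := (PresentedGroup.of 1 * (PresentedGroup.of 0)⁻¹) ^ 3

lemma artin_of0 : artin (PresentedGroup.of 0) = A1 := by
  rw [artin, PresentedGroup.toGroup.of]; rfl
lemma artin_of1 : artin (PresentedGroup.of 1) = A2 := by
  rw [artin, PresentedGroup.toGroup.of]; rfl

lemma artin_beta (x : F3) : artin beta x = f2 (g1 (f2 (g1 (f2 (g1 x))))) := by
  rw [beta, map_pow, map_mul, map_inv, artin_of0, artin_of1, pow_succ, pow_two]
  rfl

lemma triv_beta : Triv (artin beta).toMonoidHom := by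
  intro j
  show cf 1 (artin beta (FreeGroup.of j)) = _
  rw [artin_beta]
  fin_cases j <;> simp [f2, g1, c1_mul, c1_inv, c1_of]

theorem beta_orderPreserving : OrderPreserving beta :=
  ⟨cone (Fin 3), cone_isBiCone, cone_image triv_beta⟩

/-! ### the eigenvalues -/

lemma burau_of0 : burau (PresentedGroup.of 0) = U1 := by
  rw [burau, PresentedGroup.toGroup.of]; rfl
lemma burau_of1 : burau (PresentedGroup.of 1) = U2 := by
  rw [burau, PresentedGroup.toGroup.of]; rfl

/-- the matrix of `σ₂ σ₁⁻¹` -/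
noncomputable def N0 : Matrix (Fin 2) (Fin 2) ℤ[T;T⁻¹] := !![-T (-1), T (-1); -1, 1 - T 1]

lemma burau_beta : (burau beta : Matrix (Fin 2) (Fin 2) ℤ[T;T⁻¹]) = N0 ^ 3 := by
  rw [beta, map_pow, map_mul, map_inv, burau_of0, burau_of1, Units.val_pow_eq_pow_val]
  congr 1
  rw [Units.val_mul]
  show M2 * M1i = N0
  simp only [M2, M1i, N0]
  rw [Matrix.mul_fin_two]
  have h := TT
  generalize (T 1 : ℤ[T;T⁻¹]) = t at *
  generalize (T (-1) : ℤ[T;T⁻¹]) = s at *
  simp [h, sub_eq_add_neg]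

lemma det_beta : (N0 ^ 3).det = 1 := by
  rw [Matrix.det_pow]
  have : N0.det = 1 := by
    rw [N0, Matrix.det_fin_two_of]
    have h := TT'
    generalize (T 1 : ℤ[T;T⁻¹]) = t at *
    generalize (T (-1) : ℤ[T;T⁻¹]) = s at *
    linear_combination h
  rw [this, one_pow]

lemma trace_beta : (N0 ^ 3).trace = (1 - T 1 - T (-1)) ^ 3 - 3 * (1 - T 1 - T (-1)) := by
  rw [pow_succ, pow_two, N0, Matrix.mul_fin_two, Matrix.mul_fin_two, Matrix.trace_fin_two_of]
  have h := TT
  generalize (T 1 : ℤ[T;T⁻¹]) = t at *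
  generalize (T (-1) : ℤ[T;T⁻¹]) = s at *
  linear_combination (3 * s + 3 * t - 3) * h

/-- the variable `t` -/
noncomputable def tt : HahnSeries ℚ ℝ := HahnSeries.single 1 1
/-- its inverse -/
noncomputable def ti : HahnSeries ℚ ℝ := HahnSeries.single (-1) 1

lemma emb_T1 : emb (T 1) = tt := by
  simp [emb, tt]
lemma emb_Ti : emb (T (-1)) = ti := by
  simp [emb, ti]

/-- the trace of the braid, as a Puiseux series -/
noncomputable def trb : HahnSeries ℚ ℝ := (1 - tt - ti) ^ 3 - 3 * (1 - tt - ti)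

lemma tt_pos : (0 : Lex (HahnSeries ℚ ℝ)) < toLex tt := by
  rw [← HahnSeries.leadingCoeff_pos_iff]
  show 0 < tt.leadingCoeff
  rw [tt, HahnSeries.leadingCoeff_of_single]; exact one_pos

lemma ti_large : (4 : Lex (HahnSeries ℚ ℝ)) < toLex ti := by
  rw [← sub_pos, ← HahnSeries.leadingCoeff_pos_iff]
  show 0 < (ti - 4).leadingCoeff
  have h4 : (4 : HahnSeries ℚ ℝ) = HahnSeries.single 0 4 := by
    have : (4 : HahnSeries ℚ ℝ) = HahnSeries.C (4 : ℝ) := by
      rw [map_ofNat]
    rw [this]; rfl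
  rw [HahnSeries.leadingCoeff_sub]
  · rw [ti, HahnSeries.leadingCoeff_of_single]; exact one_pos
  · rw [h4, ti, HahnSeries.orderTop_single one_ne_zero, HahnSeries.orderTop_single (by norm_num)]
    exact_mod_cast (by norm_num : (-1 : ℚ) < 0)

lemma trb_neg : toLex trb < (0 : Lex (HahnSeries ℚ ℝ)) := by
  have h1 := tt_pos
  have h2 := ti_large
  have e : toLex trb = (1 - toLex tt - toLex ti) ^ 3 - 3 * (1 - toLex tt - toLex ti) := rfl
  rw [e]
  set x : Lex (HahnSeries ℚ ℝ) := toLex tt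
  set y : Lex (HahnSeries ℚ ℝ) := toLex ti
  have h3 : 1 - x - y < -3 := by linarith
  set a := 1 - x - y
  have h4 : a ^ 3 - 3 * a = a * (a ^ 2 - 3) := by ring
  rw [h4]
  apply mul_neg_of_neg_of_pos
  · linarith
  · nlinarith

lemma root_neg (a : HahnSeries ℚ ℝ) (h : a ^ 2 - trb * a + 1 = 0) : a.leadingCoeff < 0 := by
  have h0 := trb_neg
  rw [show a.leadingCoeff = (ofLex (toLex a)).leadingCoeff from rfl,
    HahnSeries.leadingCoeff_neg_iff]
  by_contra hcon
  rw [not_lt] at hcon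
  have h1 : (toLex a) ^ 2 - toLex trb * toLex a + 1 = 0 := h
  have h2 : toLex trb * toLex a ≤ 0 := mul_nonpos_of_nonpos_of_nonneg h0.le hcon
  have h3 : 0 ≤ (toLex a) ^ 2 := sq_nonneg _
  have h4 : (0 : Lex (HahnSeries ℚ ℝ)) < 1 := one_pos
  linarith

theorem beta_eigenvalues (a : HahnSeries ℚ ℝ) (ha : IsEigenvalue beta a) : a.leadingCoeff < 0 := by
  apply root_neg
  have h := ha.2
  rw [burau_beta, Matrix.charpoly_fin_two, det_beta, trace_beta, Polynomial.IsRoot] at h
  simp only [Polynomial.map_add, Polynomial.map_sub, Polynomial.map_mul, Polynomial.map_pow,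
    Polynomial.map_X, Polynomial.map_C, map_one, Polynomial.eval_add, Polynomial.eval_sub,
    Polynomial.eval_mul, Polynomial.eval_pow, Polynomial.eval_X, Polynomial.eval_C,
    Polynomial.map_one, Polynomial.map_ofNat, Polynomial.eval_one, Polynomial.eval_ofNat,
    map_sub, map_mul, map_pow, emb_T1, emb_Ti, map_ofNat] at h
  rw [← h, trb]

end Pool.Agent.Q137.BB
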