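import Pool.Agent.Q137.BB.Defs
import Pool.Agent.TH94.Gol.FreeTPO

/-! The Magnus order of a free group and its invariance under automorphisms acting trivially on
the abelianisation. -/

open Pool.Agent.TH94.Gol

namespace Pool.Agent.Q137.BB

section inv

variable {J : Type}

/-- shorthand for the free algebra -/
abbrev AA (J : Type) := MonoidAlgebra ℚ (FreeMonoid J)

/-- the map sending the letter `j` to `ζ_j X` -/
noncomputable def piA (J : Type) : AA J →ₐ[ℚ] PowerSeries (AA J) :=
  MonoidAlgebra.lift ℚ _ _ (FreeMonoid.lift fun j => PowerSeries.C (zeta ℚ j) * PowerSeries.X)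

/-- the map sending the letter `j` to `MM (φ x_j) - 1` -/
noncomputable def psA (φ : FreeGroup J →* FreeGroup J) : AA J →ₐ[ℚ] PowerSeries (AA J) :=
  MonoidAlgebra.lift ℚ _ _ (FreeMonoid.lift fun j => MM (φ (FreeGroup.of j)) - 1)

lemma OO.sub' {A : Type} [Ring A] {n : ℕ} {f g : PowerSeries A} (hf : OO n f) (hg : OO n g) :
    OO n (f - g) := by
  rw [sub_eq_add_neg]; exact OO.add hf (OO.neg hg)

lemma OO_one_pow {A : Type} [Ring A] {f : PowerSeries A} (hf : OO 1 f) (n : ℕ) : OO n (f ^ n) := by
  induction n with
  | zero => exact OO.zero _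
  | succ n ih => rw [pow_succ]; exact OO.mul ih hf

lemma geom_inv {A : Type} [Ring A] {u v : PowerSeries A} (h : v * u = 1) (hu : OO 1 (u - 1))
    (N : ℕ) : OO N ((∑ k ∈ Finset.range N, (-(u - 1)) ^ k) - v) := by
  have h1 := mul_neg_geom_sum (-(u - 1)) N
  have h2 : (1 : PowerSeries A) - -(u - 1) = u := by noncomm_ring
  rw [h2] at h1
  have h3 : (∑ k ∈ Finset.range N, (-(u - 1)) ^ k) = v - v * (-(u - 1)) ^ N := by
    calc (∑ k ∈ Finset.range N, (-(u - 1)) ^ k)
        = v * u * (∑ k ∈ Finset.range N, (-(u - 1)) ^ k) := by rw [h, one_mul]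
      _ = v - v * (-(u - 1)) ^ N := by rw [mul_assoc, h1]; noncomm_ring
  rw [h3]
  have h4 : v - v * (-(u - 1)) ^ N - v = -(v * (-(u - 1)) ^ N) := by noncomm_ring
  rw [h4]
  have h5 := OO.mul (OO.zero v) (OO_one_pow (OO.neg hu) N)
  rw [zero_add] at h5
  exact h5.neg

lemma MM_of (j : J) : MM (FreeGroup.of j) = 1 + PowerSeries.C (zeta ℚ j) * PowerSeries.X := by
  have := mag_of ℚ j
  rwa [mag_single, one_smul] at this

lemma piA_letter (j : J) : piA J (MonoidAlgebra.single (FreeMonoid.of j) 1) =
    MM (FreeGroup.of j) - 1 := by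
  rw [piA, MonoidAlgebra.lift_single, MM_of]; simp

lemma psA_letter (φ : FreeGroup J →* FreeGroup J) (j : J) :
    psA φ (MonoidAlgebra.single (FreeMonoid.of j) 1) = MM (φ (FreeGroup.of j)) - 1 := by
  rw [psA, MonoidAlgebra.lift_single]; simp

/-- simultaneous approximation -/
lemma exists_approx (φ : FreeGroup J →* FreeGroup J) (N : ℕ) (g : FreeGroup J) :
    ∃ a : AA J, OO N (piA J a - MM g) ∧ OO N (psA φ a - MM (φ g)) := by
  induction g using FreeGroup.induction_on with
  | C1 =>
    refine ⟨1, ?_, ?_⟩
    · rw [map_one, show MM (1 : FreeGroup J) = 1 from map_one _, sub_self]; intro i _; simp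
    · rw [map_one, map_one, show MM (1 : FreeGroup J) = 1 from map_one _, sub_self]; intro i _; simp
  | of j =>
    refine ⟨1 + MonoidAlgebra.single (FreeMonoid.of j) 1, ?_, ?_⟩
    · rw [map_add, map_one, piA_letter]
      intro i _; simp
    · rw [map_add, map_one, psA_letter]
      intro i _; simp
  | inv_of j _ =>
    refine ⟨∑ k ∈ Finset.range N, (-(MonoidAlgebra.single (FreeMonoid.of j) 1)) ^ k, ?_, ?_⟩
    · simp only [map_sum, map_pow, map_neg, piA_letter]
      refine geom_inv ?_ (DD_one _) N
      show MM (FreeGroup.of j)⁻¹ * MM (FreeGroup.of j) = 1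
      rw [← MM_mul, inv_mul_cancel]; exact map_one _
    · simp only [map_sum, map_pow, map_neg, psA_letter]
      refine geom_inv ?_ (DD_one _) N
      show MM (φ (FreeGroup.of j)⁻¹) * MM (φ (FreeGroup.of j)) = 1
      rw [← MM_mul, ← map_mul, inv_mul_cancel, map_one]; exact map_one _
  | mul x y hx hy =>
    obtain ⟨a, ha1, ha2⟩ := hx
    obtain ⟨b, hb1, hb2⟩ := hy
    refine ⟨a * b, ?_, ?_⟩
    · have e : piA J (a * b) - MM (x * y) =
          (piA J a - MM x) * piA J b + MM x * (piA J b - MM y) := by
        rw [map_mul, MM_mul]; noncomm_ring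
      rw [e]
      have h1 := OO.mul ha1 (OO.zero (piA J b))
      have h2 := OO.mul (OO.zero (MM x)) hb1
      rw [add_zero] at h1; rw [zero_add] at h2
      exact h1.add h2
    · have e : psA φ (a * b) - MM (φ (x * y)) =
          (psA φ a - MM (φ x)) * psA φ b + MM (φ x) * (psA φ b - MM (φ y)) := by
        rw [map_mul, map_mul, MM_mul]; noncomm_ring
      rw [e]
      have h1 := OO.mul ha2 (OO.zero (psA φ b))
      have h2 := OO.mul (OO.zero (MM (φ x))) hb2
      rw [add_zero] at h1; rw [zero_add] at h2
      exact h1.add h2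

/-- `φ` acts trivially on the abelianisation -/
def Triv (φ : FreeGroup J →* FreeGroup J) : Prop :=
  ∀ j, cf 1 (φ (FreeGroup.of j)) = zeta ℚ j

lemma letter_diff {φ : FreeGroup J →* FreeGroup J} (hφ : Triv φ) (j : J) :
    OO 2 (psA φ (MonoidAlgebra.single (FreeMonoid.of j) 1) -
      piA J (MonoidAlgebra.single (FreeMonoid.of j) 1)) := by
  rw [psA_letter, piA_letter]
  intro i hi
  have h1 := DD_one (φ (FreeGroup.of j))
  have h2 := DD_one (FreeGroup.of j)
  rw [map_sub]
  interval_cases i
  · rw [h1 0 (by norm_num), h2 0 (by norm_num), sub_zero]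
  · rw [coeff_sub_one le_rfl, coeff_sub_one le_rfl, hφ j]
    have : cf 1 (FreeGroup.of j) = zeta ℚ j := by
      rw [cf, MM_of, map_add, PowerSeries.coeff_one, if_neg one_ne_zero, zero_add,
        PowerSeries.coeff_C_mul, PowerSeries.coeff_one_X, mul_one]
    rw [this, sub_self]

lemma word_OO (φ : FreeGroup J →* FreeGroup J) (w : FreeMonoid J) :
    OO w.length (psA φ (MonoidAlgebra.single w 1)) := by
  induction w using FreeMonoid.inductionOn' with
  | one => exact OO.zero _
  | of_mul j w ih =>
    have e : (MonoidAlgebra.single (FreeMonoid.of j * w) (1 : ℚ)) =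
        MonoidAlgebra.single (FreeMonoid.of j) 1 * MonoidAlgebra.single w 1 := by
      rw [MonoidAlgebra.single_mul_single, mul_one]
    rw [e, map_mul, psA_letter, FreeMonoid.length_mul, FreeMonoid.length_of]
    exact OO.mul (DD_one _) ih

lemma piA_letter_OO (j : J) : OO 1 (piA J (MonoidAlgebra.single (FreeMonoid.of j) 1)) := by
  rw [piA_letter]; exact DD_one _

lemma word_diff {φ : FreeGroup J →* FreeGroup J} (hφ : Triv φ) (w : FreeMonoid J) :
    OO (w.length + 1) (psA φ (MonoidAlgebra.single w 1) - piA J (MonoidAlgebra.single w 1)) := by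
  induction w using FreeMonoid.inductionOn' with
  | one =>
    have e : MonoidAlgebra.single (1 : FreeMonoid J) (1 : ℚ) = 1 := rfl
    rw [e, map_one, map_one, sub_self]; intro i _; simp
  | of_mul j w ih =>
    have e : (MonoidAlgebra.single (FreeMonoid.of j * w) (1 : ℚ)) =
        MonoidAlgebra.single (FreeMonoid.of j) 1 * MonoidAlgebra.single w 1 := by
      rw [MonoidAlgebra.single_mul_single, mul_one]
    rw [e, map_mul, map_mul, FreeMonoid.length_mul, FreeMonoid.length_of]
    have e2 : ∀ a b c d : PowerSeries (AA J), a * b - c * d = (a - c) * b + c * (b - d) := by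
      intro a b c d; noncomm_ring
    rw [e2]
    have h1 := OO.mul (letter_diff hφ j) (word_OO φ w)
    have h2 := OO.mul (piA_letter_OO j) ih
    exact (h1.mono (by omega)).add (h2.mono (by omega))

lemma comm_aux {A : Type} [Ring A] (p q x r : A) (h : x * q = q * x) :
    p * x * (q * r) = p * q * (x * r) := by
  rw [mul_assoc, ← mul_assoc x q r, h]; simp only [mul_assoc]

lemma piA_word (w : FreeMonoid J) : piA J (MonoidAlgebra.single w 1) =
    PowerSeries.C (MonoidAlgebra.single w 1) * PowerSeries.X ^ w.length := by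
  induction w using FreeMonoid.inductionOn' with
  | one =>
    have e : MonoidAlgebra.single (1 : FreeMonoid J) (1 : ℚ) = 1 := rfl
    rw [e, map_one, map_one, FreeMonoid.length_one, pow_zero, mul_one]
  | of_mul j w ih =>
    have e : (MonoidAlgebra.single (FreeMonoid.of j * w) (1 : ℚ)) =
        MonoidAlgebra.single (FreeMonoid.of j) 1 * MonoidAlgebra.single w 1 := by
      rw [MonoidAlgebra.single_mul_single, mul_one]
    have e3 : piA J (MonoidAlgebra.single (FreeMonoid.of j) 1) =
        PowerSeries.C (MonoidAlgebra.single (FreeMonoid.of j) 1) * PowerSeries.X := by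
      rw [piA, MonoidAlgebra.lift_single]; simp [zeta]
    rw [e, map_mul, ih, e3, FreeMonoid.length_mul, FreeMonoid.length_of, map_mul, pow_add, pow_one]
    have hX : PowerSeries.X * PowerSeries.C (MonoidAlgebra.single w (1 : ℚ)) =
        PowerSeries.C (MonoidAlgebra.single w (1 : ℚ)) * PowerSeries.X :=
      (PowerSeries.commute_X _).symm.eq
    exact comm_aux _ _ _ _ hX

/-- coefficients of the letters expansion -/
lemma coeff_piA (a : AA J) (d : ℕ) (w : FreeMonoid J) (hw : w.length = d) :
    (PowerSeries.coeff d (piA J a)).coeff w = a.coeff w := by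
  classical
  induction a using MonoidAlgebra.induction_linear with
  | zero => simp
  | add f g hf hg =>
    rw [map_add, map_add, MonoidAlgebra.coeff_add, MonoidAlgebra.coeff_add, Finsupp.add_apply,
      Finsupp.add_apply, hf, hg]
  | single v c =>
    have e : MonoidAlgebra.single v c = c • MonoidAlgebra.single v (1 : ℚ) := by
      rw [MonoidAlgebra.smul_single]; simp
    rw [e, map_smul, piA_word]
    subst hw
    have e4 : PowerSeries.coeff w.length (c • (PowerSeries.C (MonoidAlgebra.single v (1 : ℚ)) *
        PowerSeries.X ^ v.length)) = if w.length = v.length then c • MonoidAlgebra.single v (1 : ℚ)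
        else 0 := by
      rw [show PowerSeries.coeff w.length (c • (PowerSeries.C (MonoidAlgebra.single v (1 : ℚ)) *
        PowerSeries.X ^ v.length)) = c • PowerSeries.coeff w.length (PowerSeries.C
          (MonoidAlgebra.single v (1 : ℚ)) * PowerSeries.X ^ v.length) from rfl,
        PowerSeries.coeff_C_mul, PowerSeries.coeff_X_pow]
      split_ifs <;> simp
    rw [e4]
    by_cases hl : w.length = v.length
    · rw [if_pos hl]
    · rw [if_neg hl]
      have hne : v ≠ w := by rintro rfl; exact hl rfl
      simp [hne]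

lemma OO_smul {A : Type} [Ring A] [Algebra ℚ A] {n : ℕ} {f : PowerSeries A} (hf : OO n f) (c : ℚ) :
    OO n (c • f) := by
  intro i hi
  show c • PowerSeries.coeff i f = 0
  rw [hf i hi, smul_zero]

/-- an automorphism acting trivially on the abelianisation acts trivially on the leading terms -/
lemma leading_inv {φ : FreeGroup J →* FreeGroup J} (hφ : Triv φ) {n : ℕ}
    {g : FreeGroup J} (hg : DD n g) : OO (n + 1) (MM (φ g) - MM g) := by
  classical
  obtain ⟨a, ha1, ha2⟩ := exists_approx φ (n + 1) g
  -- words of small positive length do not occur in `a`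
  have hsmall : ∀ w : FreeMonoid J, 0 < w.length → w.length < n → a.coeff w = 0 := by
    intro w h1 h2
    rw [← coeff_piA a w.length w rfl]
    have h3 := ha1 w.length (by omega)
    rw [map_sub, sub_eq_zero] at h3
    rw [h3]
    have h4 := (DD_iff n g).1 hg w.length h1 h2
    show (cf w.length g).coeff w = 0
    rw [h4]; rfl
  have hdiff : OO (n + 1) (psA φ a - piA J a) := by
    have hsum : a = ∑ w ∈ a.coeff.support, a.coeff w • MonoidAlgebra.single w (1 : ℚ) := by
      conv_lhs => rw [← MonoidAlgebra.sum_coeff_single a]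
      rw [Finsupp.sum]
      refine Finset.sum_congr rfl fun w _ => ?_
      rw [MonoidAlgebra.smul_single]; simp
    rw [hsum, map_sum, map_sum, ← Finset.sum_sub_distrib]
    intro i hi
    rw [map_sum]
    refine Finset.sum_eq_zero fun w _ => ?_
    rw [map_smul, map_smul, ← smul_sub]
    rcases Nat.eq_zero_or_pos w.length with h0 | h0
    · have hw1 : w = 1 := FreeMonoid.length_eq_zero.1 h0
      subst hw1
      have e : MonoidAlgebra.single (1 : FreeMonoid J) (1 : ℚ) = 1 := rfl
      rw [e, map_one (psA φ), map_one (piA J), sub_self, smul_zero, map_zero]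
    · rcases lt_or_ge w.length n with h1 | h1
      · rw [hsmall w h0 h1, zero_smul, map_zero]
      · exact OO_smul ((word_diff hφ w).mono (by omega)) _ i hi
  have e : MM (φ g) - MM g = -(psA φ a - MM (φ g)) + (psA φ a - piA J a) + (piA J a - MM g) := by
    noncomm_ring
  rw [e]
  exact ((ha2.neg).add hdiff).add ha1

end inv

end Pool.Agent.Q137.BB
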